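import Pool.Agent.Q188.SA.Closed

/-!
# Closed special alpha-limit sets are generic (MP_2df7e1_an, Q1)
-/

set_option autoImplicit false

open Set Filter Topology Function

namespace Pool.Agent.Results.MP_2df7e1_an.GenericClosed

/-- The special alpha-limit set of `x` under the continuous map `f : [0,1] → [0,1]`: all limits of
subsequences of backward orbit branches of `x`. -/
def specialAlpha (f : C(unitInterval, unitInterval)) (x : unitInterval) : Set unitInterval :=
  {y | ∃ z : ℕ → unitInterval, z 0 = x ∧ (∀ n, f (z (n + 1)) = z n) ∧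
    ∃ N : ℕ → ℕ, StrictMono N ∧ Tendsto (z ∘ N) atTop (𝓝 y)}

/-- extension to the line -/
noncomputable def ext (f : C(unitInterval, unitInterval)) (t : ℝ) : ℝ :=
  (f (projIcc 0 1 zero_le_one t) : ℝ)

lemma ext_continuous (f : C(unitInterval, unitInterval)) : Continuous (ext f) :=
  continuous_subtype_val.comp (f.continuous.comp continuous_projIcc)

lemma ext_coe (f : C(unitInterval, unitInterval)) (t : unitInterval) :
    ext f (t : ℝ) = (f t : ℝ) := by
  simp [ext]

lemma ext_mem (f : C(unitInterval, unitInterval)) (t : ℝ) : ext f t ∈ Icc (0 : ℝ) 1 :=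
  (f (projIcc 0 1 zero_le_one t)).2

lemma specialAlpha_eq (f : C(unitInterval, unitInterval)) (x : unitInterval) :
    specialAlpha f x = (fun y : unitInterval => (y : ℝ)) ⁻¹'
      Pool.Agent.Q188.SA.SA (ext f) (x : ℝ) := by
  ext y
  constructor
  · rintro ⟨z, hz0, hz, N, hN, hlim⟩
    refine ⟨fun n => (z n : ℝ), by simp only [hz0], fun k => ?_, N, hN, ?_⟩
    · rw [ext_coe, hz]
    · exact (continuous_subtype_val.tendsto y).comp hlim
  · rintro ⟨z, hz0, hz, N, hN, hlim⟩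
    have hI : ∀ n, z n ∈ Icc (0 : ℝ) 1 := fun n => by rw [← hz n]; exact ext_mem f _
    refine ⟨fun n => ⟨z n, hI n⟩, Subtype.ext hz0, fun n => ?_, N, hN, ?_⟩
    · apply Subtype.ext
      have h1 := hz n
      rw [← ext_coe]
      exact h1
    · rw [tendsto_subtype_rng]
      exact hlim

/-- the maps with images of intervals of length at least `δ` of length at least `2 δ` -/
def Steep (f : C(unitInterval, unitInterval)) (δ : ℝ) : Prop :=
  ∀ a b : ℝ, 0 ≤ a → b ≤ 1 → δ ≤ b - a → ∃ s ∈ Icc a b, ∃ t ∈ Icc a b,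
    2 * δ ≤ |ext f s - ext f t|

/-- the open dense sets -/
def UU (n : ℕ) : Set C(unitInterval, unitInterval) :=
  {g | ∃ (f : C(unitInterval, unitInterval)) (δ : ℝ), (0 < δ ∧ δ ≤ 1 / (n + 1) ∧ Steep f δ) ∧
    dist g f < δ / 2}

lemma UU_open (n : ℕ) : IsOpen (UU n) := by
  have : UU n = ⋃ (f : C(unitInterval, unitInterval)) (δ : ℝ)
      (_ : 0 < δ ∧ δ ≤ 1 / ((n : ℝ) + 1) ∧ Steep f δ), Metric.ball f (δ / 2) := by
    ext g
    simp only [UU, mem_ofPred_eq, mem_iUnion, Metric.mem_ball, exists_prop]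
  rw [this]
  exact isOpen_iUnion fun f => isOpen_iUnion fun δ => isOpen_iUnion fun _ => Metric.isOpen_ball

lemma wave_points {ρ : ℝ} (hρ : 0 < ρ) (a : ℝ) :
    ∃ s ∈ Icc a (a + ρ), ∃ t ∈ Icc a (a + ρ), Real.sin (Real.pi * s / ρ) ^ 2 = 1 ∧
      Real.sin (Real.pi * t / ρ) ^ 2 = 0 := by
  refine ⟨ρ * (⌈a / ρ - 1 / 2⌉ + 1 / 2), ⟨?_, ?_⟩, ρ * ⌈a / ρ⌉, ⟨?_, ?_⟩, ?_, ?_⟩
  · have h1 := Int.le_ceil (a / ρ - 1 / 2)
    have h2 : a / ρ ≤ ⌈a / ρ - 1 / 2⌉ + 1 / 2 := by linarith
    rw [div_le_iff₀ hρ] at h2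
    linarith
  · have h1 := Int.ceil_lt_add_one (a / ρ - 1 / 2)
    have h2 : (⌈a / ρ - 1 / 2⌉ : ℝ) + 1 / 2 ≤ a / ρ + 1 := by linarith
    calc ρ * ((⌈a / ρ - 1 / 2⌉ : ℝ) + 1 / 2) ≤ ρ * (a / ρ + 1) :=
          mul_le_mul_of_nonneg_left h2 hρ.le
      _ = a + ρ := by field_simp
  · have h1 := Int.le_ceil (a / ρ)
    rw [div_le_iff₀ hρ] at h1
    linarith
  · have h1 := (Int.ceil_lt_add_one (a / ρ)).le
    calc ρ * (⌈a / ρ⌉ : ℝ) ≤ ρ * (a / ρ + 1) := mul_le_mul_of_nonneg_left h1 hρ.le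
      _ = a + ρ := by field_simp
  · have h1 : Real.pi * (ρ * (⌈a / ρ - 1 / 2⌉ + 1 / 2)) / ρ =
        Real.pi / 2 + (⌈a / ρ - 1 / 2⌉ : ℝ) * Real.pi := by
      field_simp
      ring
    rw [h1, Real.sin_sq]
    have h2 : Real.cos (Real.pi / 2 + (⌈a / ρ - 1 / 2⌉ : ℝ) * Real.pi) = 0 := by
      rw [Real.cos_eq_zero_iff]
      exact ⟨⌈a / ρ - 1 / 2⌉, by ring⟩
    rw [h2]
    norm_num
  · have h1 : Real.pi * (ρ * (⌈a / ρ⌉ : ℝ)) / ρ = (⌈a / ρ⌉ : ℝ) * Real.pi := by
      field_simp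
    rw [h1, Real.sin_int_mul_pi]
    norm_num

lemma UU_dense (n : ℕ) : Dense (UU n) := by
  rw [Metric.dense_iff]
  intro f r hr
  -- the size of the perturbation
  set η : ℝ := min (r / 2) (1 / 2) with hη
  have hη0 : 0 < η := lt_min (by positivity) (by norm_num)
  have hη1 : η ≤ 1 / 2 := min_le_right _ _
  have hηr : η < r := (min_le_left _ _).trans_lt (by linarith)
  have huc : UniformContinuousOn (ext f) (Icc 0 1) :=
    isCompact_Icc.uniformContinuousOn_of_continuous (ext_continuous f).continuousOn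
  rw [Metric.uniformContinuousOn_iff] at huc
  obtain ⟨ρ₀, hρ₀, huc⟩ := huc (η / 4) (by positivity)
  set ρ : ℝ := min (ρ₀ / 2) (min (η / 4) (1 / (n + 1))) with hρdef
  have hρ : 0 < ρ := lt_min (by positivity) (lt_min (by positivity) (by positivity))
  have hρ1 : ρ ≤ ρ₀ / 2 := min_le_left _ _
  have hρ2 : ρ ≤ η / 4 := (min_le_right _ _).trans (min_le_left _ _)
  have hρ3 : ρ ≤ 1 / ((n : ℝ) + 1) := (min_le_right _ _).trans (min_le_right _ _)
  have hsin : ∀ t : ℝ, 0 ≤ Real.sin t ^ 2 ∧ Real.sin t ^ 2 ≤ 1 := fun t =>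
    ⟨sq_nonneg _, Real.sin_sq_le_one t⟩
  let g : C(unitInterval, unitInterval) :=
    ⟨fun t => ⟨(1 - η) * (f t : ℝ) + η * Real.sin (Real.pi * t / ρ) ^ 2, by
      have h1 := (f t).2.1
      have h2 := (f t).2.2
      obtain ⟨h3, h4⟩ := hsin (Real.pi * t / ρ)
      constructor
      · have : 0 ≤ (1 - η) * (f t : ℝ) := mul_nonneg (by linarith) h1
        have : 0 ≤ η * Real.sin (Real.pi * t / ρ) ^ 2 := mul_nonneg hη0.le h3
        linarith
      · have : (1 - η) * (f t : ℝ) ≤ (1 - η) * 1 := mul_le_mul_of_nonneg_left h2 (by linarith)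
        have : η * Real.sin (Real.pi * t / ρ) ^ 2 ≤ η * 1 := mul_le_mul_of_nonneg_left h4 hη0.le
        linarith⟩, by
      apply Continuous.subtype_mk
      fun_prop⟩
  have hg : ∀ t ∈ Icc (0 : ℝ) 1, ext g t = (1 - η) * ext f t +
      η * Real.sin (Real.pi * t / ρ) ^ 2 := by
    intro t ht
    simp only [ext, projIcc_of_mem zero_le_one ht, g]
    rfl
  refine ⟨g, ?_, g, ρ, ⟨hρ, hρ3, ?_⟩, by simpa using hρ⟩
  · rw [Metric.mem_ball, ContinuousMap.dist_lt_iff hr]
    intro t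
    rw [Subtype.dist_eq, Real.dist_eq]
    have h1 := (f t).2.1
    have h2 := (f t).2.2
    obtain ⟨h3, h4⟩ := hsin (Real.pi * t / ρ)
    have h5 : ((g t : unitInterval) : ℝ) - (f t : ℝ) =
        η * (Real.sin (Real.pi * t / ρ) ^ 2 - (f t : ℝ)) := by
      change (1 - η) * (f t : ℝ) + η * Real.sin (Real.pi * t / ρ) ^ 2 - (f t : ℝ) = _
      ring
    rw [h5, abs_mul, abs_of_pos hη0]
    have h6 : |Real.sin (Real.pi * t / ρ) ^ 2 - (f t : ℝ)| ≤ 1 := by
      rw [abs_le]; constructor <;> linarith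
    calc η * |Real.sin (Real.pi * t / ρ) ^ 2 - (f t : ℝ)| ≤ η * 1 :=
          mul_le_mul_of_nonneg_left h6 hη0.le
      _ < r := by linarith
  · intro a b ha hb hab
    obtain ⟨s, hs, t, ht, hs1, ht0⟩ := wave_points hρ a
    have hsI : s ∈ Icc (0 : ℝ) 1 := ⟨by linarith [hs.1], by linarith [hs.2]⟩
    have htI : t ∈ Icc (0 : ℝ) 1 := ⟨by linarith [ht.1], by linarith [ht.2]⟩
    refine ⟨s, ⟨hs.1, by linarith [hs.2]⟩, t, ⟨ht.1, by linarith [ht.2]⟩, ?_⟩
    rw [hg s hsI, hg t htI, hs1, ht0]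
    have h1 := huc s hsI t htI (by
      rw [Real.dist_eq, abs_lt]
      constructor <;> linarith [hs.1, hs.2, ht.1, ht.2])
    rw [Real.dist_eq] at h1
    have h2 := abs_lt.1 h1
    refine le_trans ?_ (le_abs_self _)
    have h3 : (1 - η) * (ext f s - ext f t) ≥ -(η / 4) := by
      have h4 : |(1 - η) * (ext f s - ext f t)| ≤ η / 4 := by
        rw [abs_mul, abs_of_pos (by linarith : (0 : ℝ) < 1 - η)]
        calc (1 - η) * |ext f s - ext f t| ≤ 1 * |ext f s - ext f t| :=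
              mul_le_mul_of_nonneg_right (by linarith) (abs_nonneg _)
          _ ≤ η / 4 := by linarith
      linarith [(abs_le.1 h4).1]
    nlinarith

lemma long_of_mem {g : C(unitInterval, unitInterval)} (hg : ∀ n, g ∈ UU n) :
    Pool.Agent.Q188.SA.Long (ext g) 0 1 := by
  intro ε hε
  obtain ⟨n, hn⟩ := exists_nat_one_div_lt hε
  obtain ⟨f, δ, ⟨hδ, hδn, hst⟩, hd⟩ := hg n
  refine ⟨δ, hδ, by linarith, fun a b ha hb hab => ?_⟩
  obtain ⟨s, hs, t, ht, h⟩ := hst a b ha hb hab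
  refine ⟨s, hs, t, ht, ?_⟩
  have hdist : ∀ u : ℝ, |ext f u - ext g u| < δ / 2 := by
    intro u
    have h1 := (ContinuousMap.dist_lt_iff (by positivity)).1 hd (projIcc 0 1 zero_le_one u)
    rw [Subtype.dist_eq, Real.dist_eq, abs_sub_comm] at h1
    exact h1
  have h1 := hdist s
  have h2 := hdist t
  have h3 : |ext f s - ext f t| ≤ |ext f s - ext g s| + |ext g s - ext g t| +
      |ext f t - ext g t| := by
    have h4 : ext f s - ext f t = (ext f s - ext g s) + (ext g s - ext g t) +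
      (-(ext f t - ext g t)) := by ring
    rw [h4]
    refine (abs_add_le _ _).trans ?_
    rw [abs_neg]
    exact add_le_add (abs_add_le _ _) le_rfl
  linarith

/-- Having all special alpha-limit sets closed is a generic property of the continuous maps of
`[0,1]` into itself with the uniform metric. -/
theorem result : {f : C(unitInterval, unitInterval) | ∀ x, IsClosed (specialAlpha f x)} ∈
    residual C(unitInterval, unitInterval) := by
  have h1 : (⋂ n, UU n) ∈ residual C(unitInterval, unitInterval) :=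
    countable_iInter_mem.2 fun n => residual_of_dense_open (UU_open n) (UU_dense n)
  refine mem_of_superset h1 fun f hf x => ?_
  rw [specialAlpha_eq]
  exact (Pool.Agent.Q188.SA.SA_closed (ext_continuous f) (ext_mem f)
    (long_of_mem fun n => mem_iInter.1 hf n) _).preimage continuous_subtype_val

end Pool.Agent.Results.MP_2df7e1_an.GenericClosed
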